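import Pool.Agent.Helper54.DP.Stmts

/-! Sets defined by formulas built from equations by `∧` and `∨` are algebraic. -/

namespace Pool.Agent.Helper38.DP

open Finset Filter Topology
open Pool.Agent.Helper54.ETR hiding Cons
open Pool.Agent.Helper54.Poly
open Pool.Agent.Helper54.DI hiding PP Gad Tpl ST_PPAND ST_PPRE ST_PPEX ST_PPTRUE ST_PPALL ST_PPLE
  ST_PPAFF ST_PPREL ST_PPOUT ST_PPTUP ST_GAD ST_TPL ST_SND ST_CPL ST_INSC ST_ITM ST_TPF ST_HARD
open Pool.Agent.Helper54.DP

/-- the polynomial of a term -/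
noncomputable def acPol (k : ℕ) : Term → MvPolynomial (Fin k) KK
  | Term.zero => 0
  | Term.one => 1
  | Term.var i => if h : i < k then MvPolynomial.X ⟨i, h⟩ else 0
  | Term.add s t => acPol k s + acPol k t
  | Term.sub s t => acPol k s - acPol k t
  | Term.mul s t => acPol k s * acPol k t

theorem ac_aeval (k : ℕ) (x : Fin k → ℝ) (t : Term) :
    MvPolynomial.aeval x (acPol k t) = t.eval (ext0 x) := by
  induction t with
  | zero => simp [acPol, Term.eval]
  | one => simp [acPol, Term.eval]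
  | var i =>
    by_cases h : i < k
    · simp [acPol, Term.eval, ext0, h]
    · simp [acPol, Term.eval, ext0, h]
  | add s t ihs iht => simp [acPol, Term.eval, ihs, iht]
  | sub s t ihs iht => simp [acPol, Term.eval, ihs, iht]
  | mul s t ihs iht => simp [acPol, Term.eval, ihs, iht]

theorem ac_form (k : ℕ) (ρ : Form) : Algebraic ρ →
    AC {x : Fin k → ℝ | ρ.Holds (ext0 x)} := by
  induction ρ with
  | lt s t => intro h; exact h.elim
  | le s t => intro h; exact h.elim
  | ge s t => intro h; exact h.elim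
  | gt s t => intro h; exact h.elim
  | not p ih => intro h; exact h.elim
  | eq s t =>
    intro _
    refine ⟨Ideal.span {acPol k s - acPol k t}, ?_⟩
    intro x
    have h1 : MvPolynomial.aeval x (acPol k s - acPol k t) =
        s.eval (ext0 x) - t.eval (ext0 x) := by
      rw [map_sub, ac_aeval, ac_aeval]
    have h2 : x ∈ {x : Fin k → ℝ | (Form.eq s t).Holds (ext0 x)} ↔
        s.eval (ext0 x) = t.eval (ext0 x) := Iff.rfl
    rw [h2]
    constructor
    · intro h g hg
      obtain ⟨c, hc⟩ := Ideal.mem_span_singleton'.mp hg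
      rw [← hc, map_mul, h1, h, sub_self, mul_zero]
    · intro h
      have h3 := h (acPol k s - acPol k t) (Ideal.subset_span rfl)
      rw [h1] at h3
      exact sub_eq_zero.mp h3
  | and p q ihp ihq =>
    intro h
    obtain ⟨I, hI⟩ := ihp h.1
    obtain ⟨J, hJ⟩ := ihq h.2
    refine ⟨I ⊔ J, ?_⟩
    intro x
    have h2 : x ∈ {x : Fin k → ℝ | (Form.and p q).Holds (ext0 x)} ↔
        (x ∈ {x : Fin k → ℝ | p.Holds (ext0 x)} ∧ x ∈ {x : Fin k → ℝ | q.Holds (ext0 x)}) :=
      Iff.rfl
    rw [h2, hI x, hJ x]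
    constructor
    · rintro ⟨ha, hb⟩ g hg
      obtain ⟨u, hu, v, hv, rfl⟩ := Submodule.mem_sup.mp hg
      rw [map_add, ha u hu, hb v hv, add_zero]
    · intro hg
      exact ⟨fun g hgI => hg g (Ideal.mem_sup_left hgI), fun g hgJ => hg g (Ideal.mem_sup_right hgJ)⟩
  | or p q ihp ihq =>
    intro h
    obtain ⟨I, hI⟩ := ihp h.1
    obtain ⟨J, hJ⟩ := ihq h.2
    refine ⟨I ⊓ J, ?_⟩
    intro x
    have h2 : x ∈ {x : Fin k → ℝ | (Form.or p q).Holds (ext0 x)} ↔
        (x ∈ {x : Fin k → ℝ | p.Holds (ext0 x)} ∨ x ∈ {x : Fin k → ℝ | q.Holds (ext0 x)}) :=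
      Iff.rfl
    rw [h2, hI x, hJ x]
    constructor
    · rintro (ha | hb) g hg
      · exact ha g hg.1
      · exact hb g hg.2
    · intro hg
      by_contra hne
      push Not at hne
      obtain ⟨⟨u, hu, hu0⟩, ⟨v, hv, hv0⟩⟩ := hne
      have h3 := hg (u * v) ⟨Ideal.mul_mem_right v I hu, Ideal.mul_mem_left J u hv⟩
      rw [map_mul] at h3
      exact (mul_ne_zero hu0 hv0) h3

theorem st_ACF : ST_ACF := fun ρ k _ h => ac_form k ρ h

end Pool.Agent.Helper38.DP
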